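import Pool.Agent.helper3.XT.Spec

/-! # xt:DGX: a dual gadget and its path -/

set_option autoImplicit false

namespace Pool.Agent.XT

open Finset SimpleGraph

theorem DGX_mem {n : ℕ} (B : FS n) (p l : Fin n) : (p, l) ∈ sw B ↔ (l, p) ∈ B := by
  unfold sw
  rw [Finset.mem_filter]
  exact ⟨fun h => h.2, fun h => ⟨Finset.mem_univ _, h⟩⟩

theorem DGX : DGX_stmt := by
  rintro n B l x l' ⟨-, h1, h2, W, hW, hWG, -⟩
  have hne : W.Nonempty := by
    rw [← Finset.card_pos]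
    omega
  obtain ⟨S, hS⟩ := hne
  obtain ⟨⟨u, w, s, hG, rfl, rfl, rfl⟩, hx⟩ := hWG S hS
  rw [DGX_mem] at h1 h2
  have hxs : ∀ p : P8, s p ≠ x := by
    intro p e
    apply hx
    unfold inn
    rw [Finset.mem_union]
    exact Or.inr (Finset.mem_image.2 ⟨p, Finset.mem_univ _, by rw [e]⟩)
  have hu : ∀ p : P8, (s p, u p.1.1) ∈ B := fun p => (DGX_mem _ _ _).1 (hG.fu p)
  have hw : ∀ p : P8, (s p, w p.1.2) ∈ B := fun p => (DGX_mem _ _ _).1 (hG.fw p)
  refine ⟨u, w, fun p => if h : p ≠ (2, 2) then s ⟨p, h⟩ else x, hG.inj, ?_, ?_⟩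
  · intro p q hpq
    beta_reduce at hpq
    by_cases hp : p ≠ (2, 2)
    · by_cases hq : q ≠ (2, 2)
      · rw [dif_pos hp, dif_pos hq] at hpq
        exact congrArg Subtype.val (hG.injs hpq)
      · rw [dif_pos hp, dif_neg hq] at hpq
        exact absurd hpq (hxs _)
    · by_cases hq : q ≠ (2, 2)
      · rw [dif_neg hp, dif_pos hq] at hpq
        exact absurd hpq.symm (hxs _)
      · rw [not_not.1 hp, not_not.1 hq]
  · intro i j
    beta_reduce
    by_cases hp : ((i, j) : Fin 3 × Fin 3) ≠ (2, 2)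
    · rw [dif_pos hp]
      exact ⟨hu ⟨(i, j), hp⟩, hw ⟨(i, j), hp⟩⟩
    · rw [dif_neg hp]
      obtain ⟨rfl, rfl⟩ := Prod.mk.inj (not_not.1 hp)
      exact ⟨h2, h1⟩

end Pool.Agent.XT
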