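import Pool.Agent.helper3.XT.Spec

/-! # xt:GFT: good flags -/

set_option autoImplicit false

namespace Pool.Agent.XT

open Finset SimpleGraph

theorem GFT : GFT_stmt := by
  classical
  intro n B
  refine ⟨?_, ?_⟩
  · unfold GF
    exact Finset.filter_subset _ _
  · intro x l h
    unfold GF at h
    rw [Finset.mem_filter] at h
    obtain ⟨-, h⟩ := h
    unfold TT
    refine h.trans (Finset.card_le_card ?_)
    intro y hy
    obtain ⟨-, -, -, h2, W, hW, hWG, hWd⟩ := Finset.mem_filter.1 hy
    unfold Tset
    exact Finset.mem_filter.2 ⟨Finset.mem_univ _, h2, W, hW, fun S hS => (hWG S hS).1, hWd⟩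

end Pool.Agent.XT
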