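import Pool.Agent.helper3.XT.Spec

/-! # xt:MMO: monotonicity of the property of containing M -/

set_option autoImplicit false

namespace Pool.Agent.XT

open Finset SimpleGraph

theorem MMO : MMO_stmt := by
  rintro n m B B' α β h ⟨f, g, hfg⟩
  exact ⟨f.trans α, g.trans β, fun a b hab => h _ _ (hfg a b hab)⟩

end Pool.Agent.XT
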