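import Pool.Agent.helper3.XT.Spec

/-! # xt:GAD: gadgets -/

set_option autoImplicit false

namespace Pool.Agent.XT

open Finset SimpleGraph

/-- the exchange of the two coordinates of a pair -/
def GAD_sw (p : P8) : P8 := ⟨(p.1.2, p.1.1), fun h => p.2 (by
  have h1 := congrArg Prod.fst h
  have h2 := congrArg Prod.snd h
  exact Prod.ext h2 h1)⟩

theorem GAD_sw_sw (p : P8) : GAD_sw (GAD_sw p) = p := rfl

theorem GAD_inn {n : ℕ} (u w : Fin 3 → Fin n) (s : P8 → Fin n) :
    inn w u (fun p => s (GAD_sw p)) = inn u w s := by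
  unfold inn
  have e1 : (Finset.univ.image (fun p => (Sum.inr (s (GAD_sw p)) : VV n))) =
      Finset.univ.image (fun p => (Sum.inr (s p) : VV n)) := by
    ext v
    simp only [Finset.mem_image, Finset.mem_univ, true_and]
    constructor
    · rintro ⟨p, rfl⟩
      exact ⟨GAD_sw p, rfl⟩
    · rintro ⟨p, rfl⟩
      exact ⟨GAD_sw p, by rw [GAD_sw_sw]⟩
  rw [e1]
  congr 1
  ext v
  simp only [Finset.mem_insert, Finset.mem_singleton]
  tauto

theorem GAD_not {n : ℕ} {B : FS n} {u w : Fin 3 → Fin n} {s : P8 → Fin n} (h : IsG B u w s) :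
    Sum.inl (w 2) ∉ inn u w s := by
  unfold inn
  simp only [Finset.mem_union, Finset.mem_insert, Finset.mem_singleton, Finset.mem_image,
    Finset.mem_univ, true_and, Sum.inl.injEq, reduceCtorEq, exists_false, or_false, not_or]
  have key : ∀ a b : Fin 3 ⊕ Fin 3, a ≠ b → Sum.elim u w a ≠ Sum.elim u w b := fun a b hab e => hab (h.inj e)
  exact ⟨key (Sum.inr 2) (Sum.inl 0) (by decide), key (Sum.inr 2) (Sum.inl 1) (by decide),
    key (Sum.inr 2) (Sum.inr 0) (by decide), key (Sum.inr 2) (Sum.inr 1) (by decide)⟩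

theorem GAD_symm {n : ℕ} {B : FS n} {u w : Fin 3 → Fin n} {s : P8 → Fin n} (h : IsG B u w s) :
    IsG B w u (fun p => s (GAD_sw p)) := by
  refine ⟨?_, ?_, ?_, ?_⟩
  · intro a b hab
    have e : ∀ c : Fin 3 ⊕ Fin 3, Sum.elim w u c = Sum.elim u w c.swap := by
      rintro (c | c) <;> rfl
    rw [e, e] at hab
    have h1 := h.inj hab
    have h2 := congrArg Sum.swap h1
    rwa [Sum.swap_swap, Sum.swap_swap] at h2
  · intro p q hpq
    have h1 := h.injs hpq
    have h2 := congrArg GAD_sw h1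
    rwa [GAD_sw_sw, GAD_sw_sw] at h2
  · intro p
    exact h.fw (GAD_sw p)
  · intro p
    exact h.fu (GAD_sw p)

theorem GAD : GAD_stmt := by
  rintro n B x y S ⟨u, w, s, h, rfl, rfl, rfl⟩
  refine ⟨⟨w, u, fun p => s (GAD_sw p), GAD_symm h, rfl, rfl, (GAD_inn u w s).symm⟩, ?_, ?_, ?_, ?_, ?_, ?_, ?_⟩
  · intro e
    have h1 := h.inj (show Sum.elim u w (Sum.inr 2) = Sum.elim u w (Sum.inl 2) from e)
    exact absurd h1 (by decide)
  · unfold inn
    refine (Finset.card_union_le _ _).trans ?_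
    have h1 : ({Sum.inl (u 0), Sum.inl (u 1), Sum.inl (w 0), Sum.inl (w 1)} : Finset (VV n)).card ≤ 4 :=
      Finset.card_le_four
    have h2 : (Finset.univ.image (fun p => (Sum.inr (s p) : VV n))).card ≤ 8 := by
      refine Finset.card_image_le.trans ?_
      decide
    omega
  · exact ⟨Sum.inl (u 0), by unfold inn; simp⟩
  · exact GAD_not h
  · have h1 := GAD_not (GAD_symm h)
    rwa [GAD_inn] at h1
  · exact ⟨_, h.fu ⟨(2, 0), by decide⟩⟩
  · intro B' hB
    exact ⟨u, w, s, ⟨h.inj, h.injs, fun p => hB (h.fu p), fun p => hB (h.fw p)⟩, rfl, rfl, rfl⟩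

end Pool.Agent.XT
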