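import Pool.Agent.helper3.XT.Spec

/-! # xt:MXF: maximal families of disjoint gadgets -/

set_option autoImplicit false

namespace Pool.Agent.XT

open Finset SimpleGraph

theorem MXF_gen {V : Type} [Fintype V] [DecidableEq V] (Pr : Finset V → Prop)
    (hc : ∀ S, Pr S → S.card ≤ 12 ∧ S.Nonempty)
    (hn : ¬ ∃ W : Finset (Finset V), 500 ≤ W.card ∧ (∀ S ∈ W, Pr S) ∧
      (W : Set (Finset V)).PairwiseDisjoint id) :
    ∃ F : Finset V, F.card ≤ 6000 ∧ (∀ v ∈ F, ∃ S, Pr S ∧ v ∈ S) ∧ ∀ S, Pr S → ¬ Disjoint S F := by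
  classical
  set X : Finset (Finset (Finset V)) := Finset.univ.filter (fun W => (∀ S ∈ W, Pr S) ∧
      (W : Set (Finset V)).PairwiseDisjoint id) with hX
  have hXm : ∀ W, W ∈ X ↔ (∀ S ∈ W, Pr S) ∧ (W : Set (Finset V)).PairwiseDisjoint id := by
    intro W
    rw [hX, Finset.mem_filter]
    exact ⟨fun h => h.2, fun h => ⟨Finset.mem_univ _, h⟩⟩
  have hXn : X.Nonempty := by
    refine ⟨∅, ?_⟩
    rw [hXm]
    refine ⟨fun S hS => absurd hS (Finset.notMem_empty S), ?_⟩
    rw [Finset.coe_empty]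
    exact Set.pairwiseDisjoint_empty
  obtain ⟨W, hW, hmax⟩ := Finset.exists_max_image X (fun W => W.card) hXn
  rw [hXm] at hW
  have hlt : W.card < 500 := by
    by_contra h
    push Not at h
    exact hn ⟨W, h, hW.1, hW.2⟩
  refine ⟨W.biUnion id, ?_, ?_, ?_⟩
  · have h1 : (W.biUnion id).card ≤ W.card * 12 := by
      apply Finset.card_biUnion_le_card_mul
      intro S hS
      exact (hc S (hW.1 S hS)).1
    omega
  · intro v hv
    rw [Finset.mem_biUnion] at hv
    obtain ⟨S, hS, hvS⟩ := hv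
    exact ⟨S, hW.1 S hS, hvS⟩
  · intro S hS hd
    have hSW : S ∉ W := by
      intro h
      obtain ⟨v, hv⟩ := (hc S hS).2
      exact Finset.disjoint_left.1 hd hv (Finset.mem_biUnion.2 ⟨S, h, hv⟩)
    have hin : insert S W ∈ X := by
      rw [hXm]
      refine ⟨?_, ?_⟩
      · intro T hT
        rw [Finset.mem_insert] at hT
        rcases hT with rfl | hT
        · exact hS
        · exact hW.1 T hT
      · rw [Finset.coe_insert]
        refine hW.2.insert ?_
        intro T hT _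
        rw [Finset.disjoint_left]
        intro v hv hv'
        exact Finset.disjoint_left.1 hd hv (Finset.mem_biUnion.2 ⟨T, hT, hv'⟩)
    have h2 := hmax _ hin
    rw [Finset.card_insert_of_notMem hSW] at h2
    omega

theorem MXF (hGAD : GAD_stmt) : MXF_stmt := by
  intro n B x y
  constructor
  · intro hR
    obtain ⟨F, hF, -, hF'⟩ := MXF_gen (Gad B x y) (fun S hS => by
      obtain ⟨-, -, h3, h4, -⟩ := hGAD n B x y S hS
      exact ⟨h3, h4⟩) hR
    exact ⟨F, hF, hF'⟩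
  · intro l hxy h1 h2 hG
    obtain ⟨F, hF, hFv, hF'⟩ := MXF_gen (fun S => Gad B x y S ∧ Sum.inr l ∉ S) (fun S hS => by
      obtain ⟨-, -, h3, h4, -⟩ := hGAD n B x y S hS.1
      exact ⟨h3, h4⟩) (fun ⟨W, hW, hWG, hWd⟩ => hG ⟨hxy, h1, h2, W, hW, hWG, hWd⟩)
    refine ⟨F, hF, ?_, ?_, ?_, fun S hS hl => hF' S ⟨hS, hl⟩⟩
    · intro h
      obtain ⟨S, hS, hxS⟩ := hFv _ h
      obtain ⟨-, -, -, -, h5, -, -⟩ := hGAD n B x y S hS.1
      exact h5 hxS
    · intro h
      obtain ⟨S, hS, hxS⟩ := hFv _ h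
      obtain ⟨-, -, -, -, -, h6, -⟩ := hGAD n B x y S hS.1
      exact h6 hxS
    · intro h
      obtain ⟨S, hS, hxS⟩ := hFv _ h
      exact hS.2 hxS

end Pool.Agent.XT
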