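import Pool.Agent.helper3.XT.Spec

/-! # xt:DUA: exchange of points and lines -/

set_option autoImplicit false

namespace Pool.Agent.XT

open Finset SimpleGraph

theorem DUA_mem {n : ℕ} (B : FS n) (p l : Fin n) : (p, l) ∈ sw B ↔ (l, p) ∈ B := by
  unfold sw
  rw [Finset.mem_filter]
  exact ⟨fun h => h.2, fun h => ⟨Finset.mem_univ _, h⟩⟩

theorem DUA_card {n : ℕ} (B : FS n) : (sw B).card = B.card := by
  have e : sw B = B.map (Equiv.prodComm (Fin n) (Fin n)).toEmbedding := by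
    ext ⟨a, b⟩
    rw [DUA_mem, Finset.mem_map]
    constructor
    · intro h
      exact ⟨(b, a), h, rfl⟩
    · rintro ⟨⟨c, d⟩, h, h'⟩
      have h1 : ((d, c) : Fin n × Fin n) = (a, b) := h'
      obtain ⟨rfl, rfl⟩ := Prod.mk.inj h1
      exact h
  rw [e, Finset.card_map]

theorem DUA_dP {n : ℕ} (B : FS n) (p : Fin n) : dP (sw B) p = dL B p := by
  ext l
  unfold dP dL
  rw [Finset.mem_filter, Finset.mem_filter, DUA_mem]

theorem DUA_dL {n : ℕ} (B : FS n) (p : Fin n) : dL (sw B) p = dP B p := by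
  ext l
  unfold dP dL
  rw [Finset.mem_filter, Finset.mem_filter, DUA_mem]

theorem DUA_G8 {n : ℕ} (B : FS n) (h : G8 B) : G8 (sw B) := by
  refine ⟨?_, ?_⟩
  · intro p q l m h1 h2 h3 h4
    rw [DUA_mem] at h1 h2 h3 h4
    exact (h.c4 l m p q h1 h3 h2 h4).symm
  · intro p q r l m k h1 h2 h3 h4 h5 h6 hpq hqr hpr
    rw [DUA_mem] at h1 h2 h3 h4 h5 h6
    by_cases hlm : l = m
    · subst hlm
      refine ⟨rfl, ?_⟩
      exact (h.c4 l k r p h4 h5 h1 h6).resolve_right hpr.symm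
    · by_cases hmk : m = k
      · subst hmk
        exact absurd ((h.c4 l m q p h2 h3 h1 h6).resolve_right hpq.symm) hlm
      · by_cases hlk : l = k
        · subst hlk
          exact absurd ((h.c4 l m q r h2 h3 h5 h4).resolve_right hqr) hlm
        · have h7 := h.c6 l m k q r p h2 h3 h4 h5 h6 h1 hlm hmk hlk
          exact absurd h7.1 hqr

theorem DUA : DUA_stmt := by
  intro n B
  refine ⟨?_, DUA_card B, DUA_mem B, DUA_dP B, DUA_dL B, DUA_G8 B, ?_, ?_⟩
  · ext ⟨a, b⟩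
    rw [DUA_mem, DUA_mem]
  · intro B' hB
    refine ⟨?_, ?_, ?_, ?_⟩
    · rintro ⟨a, b⟩ h
      rw [DUA_mem] at h ⊢
      exact hB h
    · intro h
      exact ⟨fun p q l m h1 h2 h3 h4 => h.c4 p q l m (hB h1) (hB h2) (hB h3) (hB h4),
        fun p q r l m k h1 h2 h3 h4 h5 h6 => h.c6 p q r l m k (hB h1) (hB h2) (hB h3) (hB h4) (hB h5) (hB h6)⟩
    · intro p l h
      unfold dP at h ⊢
      rw [Finset.mem_filter] at h ⊢
      exact ⟨h.1, hB h.2⟩
    · intro p l h
      unfold dL at h ⊢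
      rw [Finset.mem_filter] at h ⊢
      exact ⟨h.1, hB h.2⟩
  · intro κ D h
    refine ⟨h.n0, h.d0, ?_, ?_, ?_, ?_, ?_, DUA_G8 B h.g8⟩
    · intro p
      rw [DUA_dP]
      exact h.lu p
    · intro l
      rw [DUA_dL]
      exact h.pu l
    · intro p l hpl
      rw [DUA_dP]
      exact h.ll l p ((DUA_mem B p l).1 hpl)
    · intro p l hpl
      rw [DUA_dL]
      exact h.pl l p ((DUA_mem B p l).1 hpl)
    · rw [DUA_card]
      exact h.big

end Pool.Agent.XT
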