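import Pool.Agent.helper3.XT.Spec

/-! # xt:PHC: double counting of the pairs of paths -/

set_option autoImplicit false

namespace Pool.Agent.XT

open Finset SimpleGraph

/-- the pairs (line, end point) of the paths from `x` -/
def PHC_N {n : ℕ} (P : Finset (Fin n × Fin n × Fin n)) (x : Fin n) : Finset (Fin n × Fin n) :=
  Finset.univ.filter (fun q => (x, q.1, q.2) ∈ P)

/-- the points at distance two of `x` -/
def PHC_Y {n : ℕ} (B : FS n) (x : Fin n) : Finset (Fin n) := (dP B x).biUnion (dL B)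

theorem PHC_mem {n : ℕ} {B : FS n} {P : Finset (Fin n × Fin n × Fin n)} (hP : Cl B P) {x l y : Fin n}
    (h : (x, l, y) ∈ P) : (x, l) ∈ B ∧ (y, l) ∈ B ∧ x ≠ y :=
  ⟨hP.fx _ _ _ h, hP.fx _ _ _ (hP.sy _ _ _ h), hP.ne _ _ _ h⟩

theorem PHC_card {n : ℕ} (P : Finset (Fin n × Fin n × Fin n)) : P.card = ∑ x, (PHC_N P x).card := by
  rw [← Finset.card_sigma]
  apply Finset.card_bij (fun (t : Fin n × Fin n × Fin n) _ => (⟨t.1, t.2⟩ : Sigma fun _ : Fin n => Fin n × Fin n))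
  · rintro ⟨x, l, y⟩ h
    rw [Finset.mem_sigma]
    exact ⟨Finset.mem_univ _, Finset.mem_filter.2 ⟨Finset.mem_univ _, h⟩⟩
  · rintro ⟨x, l, y⟩ _ ⟨x', l', y'⟩ _ h
    have h1 : x = x' := congrArg Sigma.fst h
    subst h1
    have h2 : ((l, y) : Fin n × Fin n) = (l', y') := eq_of_heq (Sigma.mk.inj h).2
    rw [h2]
  · rintro ⟨x, q⟩ h
    rw [Finset.mem_sigma] at h
    exact ⟨(x, q), (Finset.mem_filter.1 h.2).2, rfl⟩

theorem PHC_Ycard {n : ℕ} {D : ℝ} {B : FS n} (hD : 0 < D) (hp : ∀ p, ((dP B p).card : ℝ) ≤ D)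
    (hl : ∀ l, ((dL B l).card : ℝ) ≤ D) (x : Fin n) : ((PHC_Y B x).card : ℝ) ≤ D ^ 2 := by
  have h1 : ((PHC_Y B x).card : ℝ) ≤ ∑ l ∈ dP B x, ((dL B l).card : ℝ) := by
    have := Finset.card_biUnion_le (s := dP B x) (t := dL B)
    exact_mod_cast this
  have h2 : ∑ l ∈ dP B x, ((dL B l).card : ℝ) ≤ ∑ l ∈ dP B x, D := Finset.sum_le_sum fun l _ => hl l
  rw [Finset.sum_const, nsmul_eq_mul] at h2
  nlinarith [hp x]

theorem PHC_same {n : ℕ} {D : ℝ} {B : FS n} {P : Finset (Fin n × Fin n × Fin n)} (hD : 0 < D)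
    (hP : Cl B P) (hp : ∀ p, ((dP B p).card : ℝ) ≤ D)
    (hl : ∀ l, ((dL B l).card : ℝ) ≤ D) (x : Fin n) :
    ((((PHC_N P x) ×ˢ (PHC_N P x)).filter (fun q => q.1.1 = q.2.1)).card : ℝ) ≤ D ^ 3 := by
  have hsub : ((PHC_N P x) ×ˢ (PHC_N P x)).filter (fun q => q.1.1 = q.2.1) ⊆
      (dP B x).biUnion (fun l => ((dL B l) ×ˢ (dL B l)).image
        (fun r : Fin n × Fin n => (((l, r.1), (l, r.2)) : (Fin n × Fin n) × (Fin n × Fin n)))) := by
    rintro ⟨⟨l, y⟩, ⟨m, z⟩⟩ h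
    rw [Finset.mem_filter, Finset.mem_product] at h
    obtain ⟨⟨h1, h2⟩, h3⟩ := h
    have h3' : l = m := h3
    subst h3'
    have h1' := PHC_mem hP (Finset.mem_filter.1 h1).2
    have h2' := PHC_mem hP (Finset.mem_filter.1 h2).2
    rw [Finset.mem_biUnion]
    refine ⟨l, Finset.mem_filter.2 ⟨Finset.mem_univ _, h1'.1⟩, ?_⟩
    rw [Finset.mem_image]
    exact ⟨(y, z), Finset.mem_product.2 ⟨Finset.mem_filter.2 ⟨Finset.mem_univ _, h1'.2.1⟩,
      Finset.mem_filter.2 ⟨Finset.mem_univ _, h2'.2.1⟩⟩, rfl⟩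
  have h1 : (((PHC_N P x) ×ˢ (PHC_N P x)).filter (fun q => q.1.1 = q.2.1)).card ≤
      ∑ l ∈ dP B x, (dL B l).card * (dL B l).card := by
    refine (Finset.card_le_card hsub).trans (Finset.card_biUnion_le.trans ?_)
    apply Finset.sum_le_sum
    intro l _
    refine Finset.card_image_le.trans ?_
    rw [Finset.card_product]
  have h2 : ((((PHC_N P x) ×ˢ (PHC_N P x)).filter (fun q => q.1.1 = q.2.1)).card : ℝ) ≤
      ∑ l ∈ dP B x, ((dL B l).card : ℝ) * ((dL B l).card : ℝ) := by exact_mod_cast h1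
  have h3 : ∑ l ∈ dP B x, ((dL B l).card : ℝ) * ((dL B l).card : ℝ) ≤ ∑ l ∈ dP B x, D * D :=
    Finset.sum_le_sum fun l _ => mul_le_mul (hl l) (hl l) (Nat.cast_nonneg _) hD.le
  rw [Finset.sum_const, nsmul_eq_mul] at h3
  have h4 : ((dP B x).card : ℝ) * (D * D) ≤ D * (D * D) := mul_le_mul_of_nonneg_right (hp x) (by positivity)
  calc _ ≤ _ := h2
    _ ≤ _ := h3
    _ ≤ _ := h4
    _ = D ^ 3 := by ring

theorem PHC_diff {n : ℕ} {B : FS n} {P : Finset (Fin n × Fin n × Fin n)} (hG : G8 B) (hP : Cl B P) :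
    ∑ x, (((PHC_N P x) ×ˢ (PHC_N P x)).filter (fun q => ¬ q.1.1 = q.2.1)).card ≤
      ∑ e : Fin n × Fin n, (Phi P e.1 e.2).card := by
  rw [← Finset.card_sigma, ← Finset.card_sigma]
  apply Finset.card_le_card_of_injOn
    (fun t : (Sigma fun _ : Fin n => (Fin n × Fin n) × (Fin n × Fin n)) =>
      (⟨(t.2.1.2, t.2.2.2), t.1⟩ : Sigma fun _ : Fin n × Fin n => Fin n))
  · rintro ⟨x, ⟨l, y⟩, ⟨m, z⟩⟩ h
    rw [Finset.mem_coe, Finset.mem_sigma, Finset.mem_filter, Finset.mem_product] at h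
    obtain ⟨-, ⟨h1, h2⟩, h3⟩ := h
    rw [Finset.mem_coe, Finset.mem_sigma]
    refine ⟨Finset.mem_univ _, ?_⟩
    unfold Phi
    rw [Finset.mem_filter]
    exact ⟨Finset.mem_univ _, l, m, h3, hP.sy _ _ _ (Finset.mem_filter.1 h1).2, (Finset.mem_filter.1 h2).2⟩
  · rintro ⟨x, ⟨l, y⟩, ⟨m, z⟩⟩ h ⟨x', ⟨l', y'⟩, ⟨m', z'⟩⟩ h' e
    rw [Finset.mem_coe, Finset.mem_sigma, Finset.mem_filter, Finset.mem_product] at h h'
    obtain ⟨-, ⟨h1, h2⟩, -⟩ := h
    obtain ⟨-, ⟨h1', h2'⟩, -⟩ := h'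
    have e1 : ((y, z) : Fin n × Fin n) = (y', z') := congrArg Sigma.fst e
    have e2 : x = x' := by
      have := congrArg (fun t : Sigma fun _ : Fin n × Fin n => Fin n => t.2) e
      exact this
    obtain ⟨rfl, rfl⟩ := Prod.mk.inj e1
    subst e2
    have a1 := PHC_mem hP (Finset.mem_filter.1 h1).2
    have a2 := PHC_mem hP (Finset.mem_filter.1 h2).2
    have a1' := PHC_mem hP (Finset.mem_filter.1 h1').2
    have a2' := PHC_mem hP (Finset.mem_filter.1 h2').2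
    have b1 : l = l' := (hG.c4 _ _ _ _ a1.1 a1.2.1 a1'.1 a1'.2.1).resolve_left a1.2.2
    have b2 : m = m' := (hG.c4 _ _ _ _ a2.1 a2.2.1 a2'.1 a2'.2.1).resolve_left a2.2.2
    subst b1
    subst b2
    rfl

theorem PHC : PHC_stmt := by
  intro n D B P hD hG hP hp hl
  constructor
  · have h1 : (P.card : ℝ) = ∑ x, ((PHC_N P x).card : ℝ) := by
      rw [PHC_card P]
      push_cast
      rfl
    have h2 : (P.card : ℝ) ^ 2 ≤ n * ∑ x, ((PHC_N P x).card : ℝ) ^ 2 := by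
      rw [h1]
      have := sq_sum_le_card_mul_sum_sq (s := (Finset.univ : Finset (Fin n))) (f := fun x => ((PHC_N P x).card : ℝ))
      rw [Finset.card_univ, Fintype.card_fin] at this
      exact this
    refine h2.trans ?_
    apply mul_le_mul_of_nonneg_left _ (Nat.cast_nonneg n)
    have h3 : ∀ x, ((PHC_N P x).card : ℝ) ^ 2 =
        ((((PHC_N P x) ×ˢ (PHC_N P x)).filter (fun q => ¬ q.1.1 = q.2.1)).card : ℝ) +
        ((((PHC_N P x) ×ˢ (PHC_N P x)).filter (fun q => q.1.1 = q.2.1)).card : ℝ) := by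
      intro x
      have h4 := Finset.card_filter_add_card_filter_not (s := (PHC_N P x) ×ˢ (PHC_N P x))
        (fun q => q.1.1 = q.2.1)
      rw [Finset.card_product] at h4
      rw [pow_two, add_comm]
      exact_mod_cast h4.symm
    rw [Finset.sum_congr rfl fun x _ => h3 x, Finset.sum_add_distrib]
    apply add_le_add
    · exact_mod_cast PHC_diff hG hP
    · refine (Finset.sum_le_sum fun x _ => PHC_same hD hP hp hl x).trans ?_
      rw [Finset.sum_const, Finset.card_univ, Fintype.card_fin, nsmul_eq_mul]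
  · have h1 : ∑ e : Fin n × Fin n, (Phi P e.1 e.2).card ≤ ∑ x, ((PHC_Y B x) ×ˢ (PHC_Y B x)).card := by
      rw [← Finset.card_sigma, ← Finset.card_sigma]
      apply Finset.card_le_card_of_injOn
        (fun t : (Sigma fun _ : Fin n × Fin n => Fin n) => (⟨t.2, t.1⟩ : Sigma fun _ : Fin n => Fin n × Fin n))
      · rintro ⟨⟨y, z⟩, x⟩ h
        rw [Finset.mem_coe, Finset.mem_sigma] at h
        have h2 := h.2
        unfold Phi at h2
        rw [Finset.mem_filter] at h2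
        obtain ⟨-, l, m, -, h3, h4⟩ := h2
        rw [Finset.mem_coe, Finset.mem_sigma]
        refine ⟨Finset.mem_univ _, ?_⟩
        have a := PHC_mem hP h3
        have b := PHC_mem hP h4
        rw [Finset.mem_product]
        constructor
        · exact Finset.mem_biUnion.2 ⟨l, Finset.mem_filter.2 ⟨Finset.mem_univ _, a.2.1⟩,
            Finset.mem_filter.2 ⟨Finset.mem_univ _, a.1⟩⟩
        · exact Finset.mem_biUnion.2 ⟨m, Finset.mem_filter.2 ⟨Finset.mem_univ _, b.1⟩,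
            Finset.mem_filter.2 ⟨Finset.mem_univ _, b.2.1⟩⟩
      · rintro ⟨e, x⟩ _ ⟨e', x'⟩ _ h
        have h1 : x = x' := congrArg Sigma.fst h
        subst h1
        have h2 : e = e' := eq_of_heq (Sigma.mk.inj h).2
        rw [h2]
    have h2 : ∑ e : Fin n × Fin n, ((Phi P e.1 e.2).card : ℝ) ≤ ∑ x, (((PHC_Y B x) ×ˢ (PHC_Y B x)).card : ℝ) := by
      exact_mod_cast h1
    refine h2.trans ?_
    have h3 : ∀ x, (((PHC_Y B x) ×ˢ (PHC_Y B x)).card : ℝ) ≤ D ^ 4 := by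
      intro x
      rw [Finset.card_product, Nat.cast_mul]
      have h4 := PHC_Ycard hD hp hl x
      have h5 : (0 : ℝ) ≤ ((PHC_Y B x).card : ℝ) := Nat.cast_nonneg _
      nlinarith
    refine (Finset.sum_le_sum fun x _ => h3 x).trans ?_
    rw [Finset.sum_const, Finset.card_univ, Fintype.card_fin, nsmul_eq_mul]

end Pool.Agent.XT
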